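import Pool.Agent.Lib_helper3.DCI.Final

/-!
# MP_aff989_co: the critical odd cycle length for distance-`t` colouring is `3 t`

For every odd `t` and every odd `ℓ ≥ 3`, the supremum `χ_t(d, ℓ)` of the distance-`t` chromatic
numbers of the finite graphs of maximum degree at most `d` without a cycle of length `ℓ` is finite,
it is `Θ(d^t)` if `ℓ < 3 t`, and it is `Θ(d^t / log d)` if `ℓ ≥ 3 t`, as `d → ∞`.
-/

set_option autoImplicit false

namespace Pool.Agent.Results.MP_aff989_co.ThresholdThreeT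

open Filter Asymptotics Pool.Agent.DCI

theorem result (t : ℕ) (ht : Odd t) (ℓ : ℕ) (hℓ : Odd ℓ) (h3 : 3 ≤ ℓ) :
    (∀ d : ℕ, chiSup t d ℓ ≠ ⊤) ∧
    (ℓ < 3 * t → (fun d : ℕ => ((chiSup t d ℓ).toNat : ℝ)) =Θ[atTop] fun d : ℕ => (d : ℝ) ^ t) ∧
    (3 * t ≤ ℓ → (fun d : ℕ => ((chiSup t d ℓ).toNat : ℝ)) =Θ[atTop]
      fun d : ℕ => (d : ℝ) ^ t / Real.log d) :=
  ⟨fun d => chi_ne_top t d ℓ, main t ht ℓ hℓ h3⟩

end Pool.Agent.Results.MP_aff989_co.ThresholdThreeT
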